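import Pool.Agent.X225.Cd.Main

/-!
# Late columns of the cubic-dimension spectral sequence vanish

`E1 𝕜 n r p q` is the group `E^1_{p,q}(n, r)` with coefficients in `𝕜`: the homology of the complex
whose basis in degree `p + q` consists of the simplices with `p + q + 1` vertices of the
Vietoris-Rips complex of `{0, 1} ^ n` at scale `r` whose cubic dimension is exactly `p`, with the
boundary map in which the faces of smaller cubic dimension are discarded.  We show that it is zero
for `p > r ^ 2 * r! * (4 r + 4) ^ r`.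

Proof: call a set of vertices closed if with `2 r + 2` vertices `c ∆ P_i` (`P_i` disjoint, of size
`t ≥ 1`) it contains the ball of radius `t` around `c`.  Maximal simplices are closed.  Order the
vertices by decreasing radius of the largest ball around them inside the closure of `σ`.  If the
cubic dimension of `σ` is large, some vertex `v` lies in the closure and in the subcube of the
vertices of `σ` after `v`; adding or removing the first such `v` is a perfect acyclic matching.
-/

namespace Pool.Agent.Results.MP_a4f165_gt.LateColumnsVanish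

open X225.Cd

/-- The vertices of the cube are the subsets `x` of `Fin n` (supports of 0/1 words); `code x` is the
number with these binary digits.  It is used to order the vertices. -/
def code {n : ℕ} (x : Finset (Fin n)) : ℕ := ∑ i ∈ x, 2 ^ (i : ℕ)

lemma code_injective {n : ℕ} : Function.Injective (code (n := n)) := by
  intro x y h
  have h1 : ∀ z : Finset (Fin n), code z = ∑ i ∈ z.map Fin.valEmbedding, 2 ^ i := by
    intro z
    rw [Finset.sum_map]
    rfl
  rw [h1, h1] at h
  exact Finset.map_injective _ (Finset.geomSum_injective le_rfl h)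

/-- `E^0_{p,q}(n, r)`: chains supported on the simplices with `p + q + 1` vertices and cubic
dimension exactly `p`. -/
def E0 (𝕜 : Type*) [Field 𝕜] (n r p : ℕ) (q : ℤ) : Submodule 𝕜 (Finset (Finset (Fin n)) → 𝕜) where
  carrier := {z | ∀ σ, z σ ≠ 0 → IsFace n r p σ ∧ (σ.card : ℤ) = p + q + 1}
  add_mem' := by
    intro z w hz hw σ hσ
    by_cases h : z σ = 0
    · refine hw σ ?_
      rw [Pi.add_apply, h, zero_add] at hσ
      exact hσ
    · exact hz σ h
  zero_mem' := fun σ hσ => absurd rfl hσ
  smul_mem' := by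
    intro c z hz σ hσ
    refine hz σ ?_
    rw [Pi.smul_apply, smul_eq_mul] at hσ
    exact right_ne_zero_of_mul hσ

/-- `d^0`: the simplicial boundary with the faces of smaller cubic dimension discarded. -/
noncomputable def d0 (𝕜 : Type*) [Field 𝕜] (n r p : ℕ) :
    (Finset (Finset (Fin n)) → 𝕜) →ₗ[𝕜] (Finset (Finset (Fin n)) → 𝕜) :=
  rbd 𝕜 code (IsFace n r p)

/-- the cycles in `E^0_{p,q}(n, r)` -/
noncomputable def cycles (𝕜 : Type*) [Field 𝕜] (n r p : ℕ) (q : ℤ) :
    Submodule 𝕜 (Finset (Finset (Fin n)) → 𝕜) := E0 𝕜 n r p q ⊓ LinearMap.ker (d0 𝕜 n r p)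

/-- the boundaries in `E^0_{p,q}(n, r)` -/
noncomputable def boundaries (𝕜 : Type*) [Field 𝕜] (n r p : ℕ) (q : ℤ) :
    Submodule 𝕜 (Finset (Finset (Fin n)) → 𝕜) := (E0 𝕜 n r p (q + 1)).map (d0 𝕜 n r p)

/-- `E^1_{p,q}(n, r)`: cycles modulo boundaries. -/
abbrev E1 (𝕜 : Type*) [Field 𝕜] (n r p : ℕ) (q : ℤ) : Type _ :=
  cycles 𝕜 n r p q ⧸ (boundaries 𝕜 n r p q).submoduleOf (cycles 𝕜 n r p q)

/-- Sanity check (not used below): boundaries are cycles. -/
lemma boundaries_le (𝕜 : Type*) [Field 𝕜] (n r p : ℕ) (q : ℤ) :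
    boundaries 𝕜 n r p q ≤ cycles 𝕜 n r p q := by
  rintro _ ⟨w, hw, rfl⟩
  refine ⟨?_, ?_⟩
  · intro σ hσ
    by_cases hS : IsFace n r p σ
    · refine ⟨hS, ?_⟩
      unfold d0 at hσ
      rw [rbd_of_mem _ hS] at hσ
      obtain ⟨v, hv, hne⟩ := exists_of_bd_ne_zero hσ
      have h1 := (hw _ hne).2
      rw [Finset.card_insert_of_notMem hv] at h1
      push_cast at h1
      linarith
    · exact absurd (rbd_of_not_mem _ hS) hσ
  · exact rbd_rbd code_injective isFace_convex w fun σ hσ => (hw σ hσ).1

/-- **Main result.** For all `r, n`, all `p > r ^ 2 * r! * (4 r + 4) ^ r` and all integers `q` the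
group `E^1_{p,q}(n, r)` is zero, for every coefficient field. -/
theorem result (𝕜 : Type*) [Field 𝕜] (n r p : ℕ) (q : ℤ)
    (hp : r ^ 2 * r.factorial * (4 * r + 4) ^ r < p) : Subsingleton (E1 𝕜 n r p q) := by
  rw [Submodule.Quotient.subsingleton_iff, Submodule.submoduleOf_eq_top]
  intro z hz
  obtain ⟨hz1, hz2⟩ := hz
  have hz1' : ∀ σ, z σ ≠ 0 → IsFace n r p σ ∧ (σ.card : ℤ) = p + q + 1 := hz1
  by_cases hq : 0 ≤ (p : ℤ) + q + 1
  · obtain ⟨m, hm⟩ := Int.eq_ofNat_of_zero_le hq
    obtain ⟨w, hw1, hw2⟩ := exact_main 𝕜 (o := code) code_injective hp m z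
      (fun σ hσ => ⟨(hz1' σ hσ).1, by
        have := (hz1' σ hσ).2
        rw [hm] at this
        exact_mod_cast this⟩) hz2
    refine ⟨w, ?_, hw2⟩
    intro σ hσ
    refine ⟨(hw1 σ hσ).1, ?_⟩
    have h1 := (hw1 σ hσ).2
    rw [h1]
    push_cast
    linarith
  · have hz0 : z = 0 := by
      ext σ
      by_contra hne
      have := (hz1' σ hne).2
      have h2 : (0 : ℤ) ≤ σ.card := Int.natCast_nonneg _
      omega
    rw [hz0]
    exact Submodule.zero_mem _

end Pool.Agent.Results.MP_a4f165_gt.LateColumnsVanish
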